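import Mathlib
import Pool.Agent.W72.BaQ

set_option autoImplicit false

namespace Pool.Agent.Results.MP_728aaa_nt.BadlyApproximable

open Polynomial

/-- The naive height of an integer polynomial: the maximum absolute value of its coefficients. -/
noncomputable def height (P : ℤ[X]) : ℕ := P.support.sup (fun i => (P.coeff i).natAbs)

/-- `P` is the minimal polynomial over `ℤ` of the complex number `α`: irreducible, primitive,
with positive leading coefficient, vanishing at `α`. -/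
def IsMinPolyZ (P : ℤ[X]) (α : ℂ) : Prop :=
  Irreducible P ∧ P.IsPrimitive ∧ 0 < P.leadingCoeff ∧ aeval α P = 0

/-- Mahler's exponent `w_n(ξ)`, in the extended reals: the supremum of the real `w` for which
infinitely many integer polynomials `P` of degree at most `n` satisfy `0 < |P(ξ)| ≤ H(P)^(-w)`. -/
noncomputable def wMahler (ξ : ℝ) (n : ℕ) : EReal :=
  sSup {W : EReal | ∃ w : ℝ, W = (w : EReal) ∧
    {P : ℤ[X] | P.natDegree ≤ n ∧ 0 < |aeval ξ P| ∧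
      |aeval ξ P| ≤ (height P : ℝ) ^ (-w)}.Infinite}

/-- Koksma's exponent `w_n^*(ξ)`, in the extended reals: the supremum of the real `w` for which
infinitely many (complex) algebraic numbers `α` of degree at most `n` satisfy
`0 < |ξ - α| ≤ H(α)^(-w-1)`. -/
noncomputable def wKoksma (ξ : ℝ) (n : ℕ) : EReal :=
  sSup {W : EReal | ∃ w : ℝ, W = (w : EReal) ∧
    {α : ℂ | ∃ P : ℤ[X], IsMinPolyZ P α ∧ P.natDegree ≤ n ∧ 0 < ‖(ξ : ℂ) - α‖ ∧
      ‖(ξ : ℂ) - α‖ ≤ (height P : ℝ) ^ (-w - 1)}.Infinite}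

/-- The same exponent when only real algebraic numbers `α` are allowed. -/
noncomputable def wKoksmaReal (ξ : ℝ) (n : ℕ) : EReal :=
  sSup {W : EReal | ∃ w : ℝ, W = (w : EReal) ∧
    {α : ℝ | ∃ P : ℤ[X], IsMinPolyZ P (α : ℂ) ∧ P.natDegree ≤ n ∧ 0 < |ξ - α| ∧
      |ξ - α| ≤ (height P : ℝ) ^ (-w - 1)}.Infinite}

/-- Badly approximable real numbers. -/
def BadlyApproximable (ξ : ℝ) : Prop :=
  Irrational ξ ∧ ∃ c : ℝ, 0 < c ∧ ∀ p q : ℤ, 1 ≤ q → c / (q : ℝ) ^ 2 ≤ |ξ - (p : ℝ) / (q : ℝ)|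

theorem bad_eta (s : ℕ → Bool) : BadlyApproximable (Pool.Agent.W72.eta s) := by
  have key : ∀ p q : ℤ, 1 ≤ q → (1 / 6 : ℝ) / (q : ℝ) ^ 2 ≤
      |Pool.Agent.W72.eta s - (p : ℝ) / (q : ℝ)| := by
    intro p q hq
    have h1 := Pool.Agent.W72.eta_bad s p q hq
    have hq0 : (0 : ℝ) < q := by
      have : (1 : ℝ) ≤ q := by exact_mod_cast hq
      linarith
    have e : Pool.Agent.W72.eta s - (p : ℝ) / (q : ℝ) = (q * Pool.Agent.W72.eta s - p) / q := by
      field_simp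
    rw [e, abs_div, abs_of_pos hq0, le_div_iff₀ hq0]
    calc (1 / 6 : ℝ) / (q : ℝ) ^ 2 * q = 1 / (6 * (q : ℝ)) := by field_simp
      _ ≤ _ := h1
  refine ⟨?_, 1 / 6, by norm_num, key⟩
  rintro ⟨r, hr⟩
  have h1 := key r.num r.den (by exact_mod_cast r.pos)
  have e : Pool.Agent.W72.eta s - (r.num : ℝ) / ((r.den : ℤ) : ℝ) = 0 := by
    rw [← hr]
    have : (r : ℝ) = (r.num : ℝ) / (r.den : ℝ) := by exact_mod_cast (Rat.num_div_den r).symm
    rw [this]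
    push_cast
    ring
  rw [e, abs_zero] at h1
  have h2 : (0 : ℝ) < ((r.den : ℤ) : ℝ) := by exact_mod_cast r.pos
  have : (0 : ℝ) < (1 / 6 : ℝ) / (((r.den : ℤ)) : ℝ) ^ 2 := by positivity
  linarith

theorem sSup_eq_of (S : Set ℝ) (a : ℝ) (ha : 0 < a) (h1 : ∀ w ∈ S, w ≤ a)
    (h2 : ∀ w : ℝ, 0 ≤ w → w < a → w ∈ S) :
    sSup {W : EReal | ∃ w : ℝ, W = (w : EReal) ∧ w ∈ S} = (a : EReal) := by
  apply le_antisymm
  · apply sSup_le
    rintro W ⟨w, rfl, hw⟩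
    exact_mod_cast h1 w hw
  · apply le_of_forall_lt
    intro c hc
    obtain ⟨b, hb1, hb2⟩ := EReal.lt_iff_exists_real_btwn.mp hc
    have hba : b < a := by exact_mod_cast hb2
    have hmem : max b 0 ∈ S := h2 _ (le_max_right _ _) (max_lt hba ha)
    refine lt_of_lt_of_le hb1 ?_
    refine le_trans ?_ (le_sSup ⟨max b 0, rfl, hmem⟩)
    exact_mod_cast le_max_left b 0

theorem height_eq (P : ℤ[X]) : height P = Pool.Agent.Helper35.ht P := rfl

/-- For large heights the powers compare. -/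
theorem exists_big (c d : ℝ) (hc : 0 < c) (hd : 0 < d) : ∃ H : ℕ, ∀ h : ℕ, H < h →
    (h : ℝ) ^ (-d) < c := by
  have hlim : Filter.Tendsto (fun H : ℕ => (H : ℝ) ^ (-d)) Filter.atTop (nhds 0) :=
    (tendsto_rpow_neg_atTop hd).comp tendsto_natCast_atTop_atTop
  obtain ⟨H, hH⟩ := Filter.eventually_atTop.mp (hlim.eventually_lt_const hc)
  exact ⟨H, fun h hh => hH h hh.le⟩

theorem mahler_case (n : ℕ) (hn : 2 ≤ n) (w : ℝ) (hw : (n : ℝ) ≤ w) :
    ∃ ξ : ℝ, BadlyApproximable ξ ∧ wMahler ξ n = (w : EReal) := by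
  have hn2 : (2 : ℝ) ≤ n := by exact_mod_cast hn
  obtain ⟨s, h1, h2⟩ := Pool.Agent.W72.mahler_main n hn w hw
  refine ⟨Pool.Agent.W72.eta s, bad_eta s, ?_⟩
  apply sSup_eq_of _ w (by linarith)
  · intro w' hw'
    by_contra hcon
    push Not at hcon
    obtain ⟨c, hc, hP⟩ := h1 ((w' - w) / 2) (by linarith)
    obtain ⟨H, hH⟩ := exists_big c ((w' - w) / 2) hc (by linarith)
    obtain ⟨P, ⟨hPn, hPpos, hPle⟩, hPH⟩ := Pool.Agent.Helper35.exists_ht_gt
      (show Set.Infinite {P : ℤ[X] | P.natDegree ≤ n ∧ 0 < |aeval (Pool.Agent.W72.eta s) P| ∧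
        |aeval (Pool.Agent.W72.eta s) P| ≤ (height P : ℝ) ^ (-w')} from hw')
      (fun P hP => hP.1) H
    have hP0 : P ≠ 0 := by
      rintro rfl
      simp at hPpos
    have h3 := hP P hP0 hPn
    have h4 := hH _ hPH
    rw [height_eq] at hPle
    have hpos : (0 : ℝ) < Pool.Agent.Helper35.ht P := by
      exact_mod_cast Pool.Agent.Helper35.ht_pos hP0
    have h5 : c ≤ (Pool.Agent.Helper35.ht P : ℝ) ^ (-w') *
        (Pool.Agent.Helper35.ht P : ℝ) ^ (w + (w' - w) / 2) :=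
      h3.trans (mul_le_mul_of_nonneg_right hPle (Real.rpow_nonneg hpos.le _))
    rw [← Real.rpow_add hpos] at h5
    have e : -w' + (w + (w' - w) / 2) = -((w' - w) / 2) := by ring
    rw [e] at h5
    linarith
  · intro w' hw'0 hw'
    refine (h2 w' hw'0 hw').mono ?_
    rintro P ⟨_, hPn, hPpos, hPle⟩
    exact ⟨hPn, hPpos, hPle⟩

theorem koksma_case (n : ℕ) (hn : 2 ≤ n) (w : ℝ) (hw : (n : ℝ) ≤ w) :
    ∃ ξ : ℝ, BadlyApproximable ξ ∧ wKoksma ξ n = (w : EReal) ∧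
      wKoksmaReal ξ n = (w : EReal) := by
  have hn2 : (2 : ℝ) ≤ n := by exact_mod_cast hn
  obtain ⟨s, h1, h2⟩ := Pool.Agent.W72.koksma_main n hn w hw
  obtain ⟨ξ, hξ⟩ : ∃ ξ, ξ = Pool.Agent.W72.eta s := ⟨_, rfl⟩
  rw [← hξ] at h1 h2
  -- upper bound for the complex version
  have hupC : ∀ w' : ℝ, {α : ℂ | ∃ P : ℤ[X], IsMinPolyZ P α ∧ P.natDegree ≤ n ∧
      0 < ‖(ξ : ℂ) - α‖ ∧ ‖(ξ : ℂ) - α‖ ≤ (height P : ℝ) ^ (-w' - 1)}.Infinite → w' ≤ w := by
    intro w' hw'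
    by_contra hcon
    push Not at hcon
    obtain ⟨c, hc, H0, hP⟩ := h1 ((w' - w) / 2) (by linarith)
    obtain ⟨H, hH⟩ := exists_big c ((w' - w) / 2) hc (by linarith)
    -- there is an element of large height
    obtain ⟨α, P, hmin, hPn, hPpos, hPle, hPH⟩ : ∃ (α : ℂ) (P : ℤ[X]), IsMinPolyZ P α ∧
        P.natDegree ≤ n ∧ 0 < ‖(ξ : ℂ) - α‖ ∧ ‖(ξ : ℂ) - α‖ ≤ (height P : ℝ) ^ (-w' - 1) ∧
        max H H0 < height P := by
      by_contra hno
      push Not at hno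
      apply hw'
      have hfin : (⋃ P ∈ (↑(Pool.Agent.Helper35.boxF n (max H H0)) : Set ℤ[X]),
          {α : ℂ | P ≠ 0 ∧ aeval α P = 0}).Finite := by
        apply Set.Finite.biUnion (Pool.Agent.Helper35.boxF n (max H H0)).finite_toSet
        intro P _
        by_cases hP : P = 0
        · simp [hP]
        · have h1 : (P.map (Int.castRingHom ℂ)) ≠ 0 :=
            (Polynomial.map_ne_zero_iff (RingHom.injective_int _)).mpr hP
          apply (P.map (Int.castRingHom ℂ)).roots.toFinset.finite_toSet.subset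
          intro α hα
          rw [Finset.mem_coe, Multiset.mem_toFinset, mem_roots h1, IsRoot.def]
          have h2 := hα.2
          rw [eval_map]
          simpa [aeval_def] using h2
      apply hfin.subset
      rintro α ⟨P, hmin, hPn, hPpos, hPle⟩
      rw [Set.mem_iUnion₂]
      exact ⟨P, Pool.Agent.Helper35.mem_boxF hPn (hno α P hmin hPn hPpos hPle), hmin.1.ne_zero,
        hmin.2.2.2⟩
    rw [height_eq] at hPle hPH
    have hpos1 : (1 : ℝ) ≤ Pool.Agent.Helper35.ht P := by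
      exact_mod_cast Pool.Agent.Helper35.ht_pos hmin.1.ne_zero
    have hpos : (0 : ℝ) < Pool.Agent.Helper35.ht P := by linarith
    have hclose : ‖(ξ : ℂ) - α‖ ≤ 1 :=
      hPle.trans (Real.rpow_le_one_of_one_le_of_nonpos hpos1 (by linarith))
    have h3 := hP P α hmin.1 hmin.2.1 hmin.2.2.2 hPn hclose
      ((le_max_right _ _).trans hPH.le)
    have h4 := hH _ (lt_of_le_of_lt (le_max_left _ _) hPH)
    have h5 : c ≤ (Pool.Agent.Helper35.ht P : ℝ) ^ (-w' - 1) *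
        (Pool.Agent.Helper35.ht P : ℝ) ^ (w + (w' - w) / 2 + 1) :=
      h3.trans (mul_le_mul_of_nonneg_right hPle (Real.rpow_nonneg hpos.le _))
    rw [← Real.rpow_add hpos] at h5
    have e : -w' - 1 + (w + (w' - w) / 2 + 1) = -((w' - w) / 2) := by ring
    rw [e] at h5
    linarith
  -- lower bound for the real version
  have hloR : ∀ w' : ℝ, 0 ≤ w' → w' < w → {α : ℝ | ∃ P : ℤ[X], IsMinPolyZ P (α : ℂ) ∧
      P.natDegree ≤ n ∧ 0 < |ξ - α| ∧ |ξ - α| ≤ (height P : ℝ) ^ (-w' - 1)}.Infinite := by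
    intro w' hw'0 hw'
    have h3 : Set.Infinite _ := h2 w' hw'0 hw'
    refine h3.mono ?_
    rintro α ⟨P, ⟨hP1, hP2, hP3, hP4⟩, hPn, hPpos, hPle⟩
    refine ⟨P, ⟨hP1, hP2, hP3, ?_⟩, hPn, hPpos, hPle⟩
    rw [Pool.Agent.W72.aeval_coe, hP4]
    simp
  -- real sets inject into complex sets
  have hRC : ∀ w' : ℝ, {α : ℝ | ∃ P : ℤ[X], IsMinPolyZ P (α : ℂ) ∧
      P.natDegree ≤ n ∧ 0 < |ξ - α| ∧ |ξ - α| ≤ (height P : ℝ) ^ (-w' - 1)}.Infinite →
      {α : ℂ | ∃ P : ℤ[X], IsMinPolyZ P α ∧ P.natDegree ≤ n ∧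
      0 < ‖(ξ : ℂ) - α‖ ∧ ‖(ξ : ℂ) - α‖ ≤ (height P : ℝ) ^ (-w' - 1)}.Infinite := by
    intro w' hinf
    have h3 := hinf.image (Complex.ofReal_injective.injOn (s := {α : ℝ | ∃ P : ℤ[X],
      IsMinPolyZ P (α : ℂ) ∧ P.natDegree ≤ n ∧ 0 < |ξ - α| ∧
      |ξ - α| ≤ (height P : ℝ) ^ (-w' - 1)}))
    refine h3.mono ?_
    rintro _ ⟨α, ⟨P, hmin, hPn, hPpos, hPle⟩, rfl⟩
    have e : ‖(ξ : ℂ) - (α : ℂ)‖ = |ξ - α| := by
      rw [← Complex.ofReal_sub, Complex.norm_real, Real.norm_eq_abs]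
    exact ⟨P, hmin, hPn, by rw [e]; exact hPpos, by rw [e]; exact hPle⟩
  refine ⟨ξ, by rw [hξ]; exact bad_eta s, ?_, ?_⟩
  · exact sSup_eq_of _ w (by linarith) (fun w' hw' => hupC w' hw')
      (fun w' hw'0 hw' => hRC w' (hloR w' hw'0 hw'))
  · exact sSup_eq_of _ w (by linarith) (fun w' hw' => hupC w' (hRC w' hw'))
      (fun w' hw'0 hw' => hloR w' hw'0 hw')

/-- For every `n ≥ 2` and real `τ ≥ 1` there is a badly approximable `ξ` with
`w_n(ξ) = τ (n + 1) - 1`, and there is a badly approximable `ξ` with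
`w_n^*(ξ) = τ (n + 1) - 1` (with complex, and also with only real, algebraic numbers). -/
theorem result : ∀ n : ℕ, 2 ≤ n → ∀ τ : ℝ, 1 ≤ τ →
    (∃ ξ : ℝ, BadlyApproximable ξ ∧
      wMahler ξ n = ((τ * ((n : ℝ) + 1) - 1 : ℝ) : EReal)) ∧
    (∃ ξ : ℝ, BadlyApproximable ξ ∧
      wKoksma ξ n = ((τ * ((n : ℝ) + 1) - 1 : ℝ) : EReal) ∧
      wKoksmaReal ξ n = ((τ * ((n : ℝ) + 1) - 1 : ℝ) : EReal)) := by
  intro n hn τ hτ
  have hn2 : (2 : ℝ) ≤ n := by exact_mod_cast hn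
  have hw : (n : ℝ) ≤ τ * ((n : ℝ) + 1) - 1 := by nlinarith
  exact ⟨mahler_case n hn _ hw, koksma_case n hn _ hw⟩

end Pool.Agent.Results.MP_728aaa_nt.BadlyApproximable
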